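import Mathlib

/-!
# The second moment lemma of project BT (two-sided decoupling)

`A` nodes, `T` letters of a node, `K` values of a letter, `P` places of a block.
-/

namespace Pool.Agent.Helper69.BT

open Finset

variable {A T K P G G₁ G₂ : Type*}

/-- Any four letters per node are jointly surjective. -/
def Four [AddCommGroup K] [AddCommGroup G] (Φ : G →+ (A → T → K)) : Prop :=
  ∀ τ : A → Finset T, (∀ u, (τ u).card ≤ 4) → ∀ y : A → T → K,
    ∃ g, ∀ u, ∀ t ∈ τ u, Φ g u t = y u t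

/-- `f` depends only on the letters `τ`. -/
def DependsOn (τ : A → Finset T) (f : (A → T → K) → ℝ) : Prop :=
  ∀ y y' : A → T → K, (∀ u, ∀ t ∈ τ u, y u t = y' u t) → f y = f y'

section L1

variable [Fintype A] [Fintype T] [DecidableEq A] [DecidableEq T]
variable [AddCommGroup K] [Fintype K] [DecidableEq K] [AddCommGroup G] [Fintype G]

omit [Fintype A] [Fintype T] [DecidableEq A] [DecidableEq T] [Fintype K] [DecidableEq K] in
theorem sum_shift_const (Φ : G →+ (A → T → K)) (hΦ : Four Φ) (τ : A → Finset T)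
    (hτ : ∀ u, (τ u).card ≤ 4) (f : (A → T → K) → ℝ) (hf : DependsOn τ f)
    (x x' : A → T → K) : ∑ g, f (x + Φ g) = ∑ g, f (x' + Φ g) := by
  obtain ⟨g₀, hg₀⟩ := hΦ τ hτ (x' - x)
  rw [← Equiv.sum_comp (Equiv.addLeft g₀) (fun g => f (x + Φ g))]
  refine Finset.sum_congr rfl fun g _ => hf _ _ fun u t ht => ?_
  have := hg₀ u t ht
  simp only [Equiv.coe_addLeft, map_add, Pi.add_apply, Pi.sub_apply] at this ⊢
  rw [this]
  abel

/-- Averages over the shifts are averages over all letters. -/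
theorem sum_shift (Φ : G →+ (A → T → K)) (hΦ : Four Φ) (τ : A → Finset T)
    (hτ : ∀ u, (τ u).card ≤ 4) (f : (A → T → K) → ℝ) (hf : DependsOn τ f)
    (x : A → T → K) :
    (Fintype.card (A → T → K) : ℝ) * ∑ g, f (x + Φ g)
      = (Fintype.card G : ℝ) * ∑ y, f y := by
  have h1 : ∑ x' : A → T → K, ∑ g, f (x' + Φ g)
      = (Fintype.card (A → T → K) : ℝ) * ∑ g, f (x + Φ g) := by
    rw [Finset.sum_congr rfl fun x' _ => sum_shift_const Φ hΦ τ hτ f hf x' x,
      Finset.sum_const, Finset.card_univ, nsmul_eq_mul]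
  rw [← h1, Finset.sum_comm]
  have h2 : ∀ g : G, ∑ x' : A → T → K, f (x' + Φ g) = ∑ y, f y := fun g =>
    Equiv.sum_comp (Equiv.addRight (Φ g)) f
  rw [Finset.sum_congr rfl fun g _ => h2 g, Finset.sum_const, Finset.card_univ,
    nsmul_eq_mul]

end L1

section One

variable [Fintype T] [DecidableEq T] [AddCommGroup K] [Fintype K] [DecidableEq K]

/-- The centred indicator of a value. -/
noncomputable def e (b z : K) : ℝ := (if z = b then 1 else 0) - 1 / (Fintype.card K : ℝ)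

theorem sum_e (b : K) : ∑ z, e b z = 0 := by
  have hk : (Fintype.card K : ℝ) ≠ 0 := by
    have : 0 < Fintype.card K := Fintype.card_pos_iff.2 ⟨0⟩
    positivity
  simp [e, Finset.sum_sub_distrib, Finset.card_univ, hk]

theorem sum_e_add (b d : K) : ∑ z, e b (z + d) = 0 := by
  rw [← sum_e b]
  exact Equiv.sum_comp (Equiv.addRight d) (fun z => e b z)

/-- correlation -/
noncomputable def corr (b b' d : K) : ℝ := ∑ z, e b z * e b' (z + d)

theorem corr_eq (b b' d : K) :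
    corr b b' d = (if d = b' - b then 1 else 0) - 1 / (Fintype.card K : ℝ) := by
  have hk : (Fintype.card K : ℝ) ≠ 0 := by
    have : 0 < Fintype.card K := Fintype.card_pos_iff.2 ⟨0⟩
    positivity
  have h1 : corr b b' d = ∑ z, (if z = b then e b' (z + d) else 0) := by
    have : ∀ z, e b z * e b' (z + d) = (if z = b then e b' (z + d) else 0)
        - 1 / (Fintype.card K : ℝ) * e b' (z + d) := by
      intro z
      unfold e
      split_ifs <;> ring
    rw [corr, Finset.sum_congr rfl fun z _ => this z, Finset.sum_sub_distrib,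
      ← Finset.mul_sum, sum_e_add]
    ring
  rw [h1, Finset.sum_ite_eq' Finset.univ b]
  simp only [Finset.mem_univ, if_true, e]
  congr 1
  by_cases h : d = b' - b
  · subst h; simp
  · rw [if_neg h, if_neg]
    intro h2
    exact h (by rw [← h2]; abel)

theorem sum_abs_corr (b b' : K) : ∑ d, |corr b b' d| ≤ 2 := by
  have hk0 : 0 < Fintype.card K := Fintype.card_pos_iff.2 ⟨0⟩
  have hk : (0 : ℝ) < (Fintype.card K : ℝ) := by exact_mod_cast hk0
  calc ∑ d, |corr b b' d|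
      ≤ ∑ d : K, ((if d = b' - b then 1 else 0) + 1 / (Fintype.card K : ℝ)) := by
        refine Finset.sum_le_sum fun d _ => ?_
        rw [corr_eq]
        refine (abs_sub _ _).trans ?_
        rw [abs_of_nonneg (by positivity : (0 : ℝ) ≤ 1 / (Fintype.card K : ℝ))]
        gcongr
        split_ifs <;> simp
    _ = 2 := by
        rw [Finset.sum_add_distrib, Finset.sum_ite_eq' Finset.univ]
        simp [Finset.card_univ, hk.ne']
        norm_num

/-- marginalisation of one letter -/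
theorem marg (v : T) (f : (T → K) → ℝ) :
    (Fintype.card K : ℝ) * ∑ y, f y = ∑ y : T → K, ∑ a : K, f (y + Pi.single v a) := by
  rw [Finset.sum_comm]
  have h : ∀ a : K, ∑ y : T → K, f (y + Pi.single v a) = ∑ y, f y := fun a =>
    Equiv.sum_comp (Equiv.addRight (Pi.single v a : T → K)) f
  rw [Finset.sum_congr rfl fun a _ => h a, Finset.sum_const, Finset.card_univ, nsmul_eq_mul]

theorem card_ne : (Fintype.card K : ℝ) ≠ 0 := by
  have : 0 < Fintype.card K := Fintype.card_pos_iff.2 ⟨0⟩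
  positivity

theorem sum_eq_zero_of_single (v : T) (f : (T → K) → ℝ)
    (h : ∀ y : T → K, ∑ a : K, f (y + Pi.single v a) = 0) : ∑ y, f y = 0 := by
  have h1 := marg v f
  rw [Finset.sum_congr rfl fun y _ => h y, Finset.sum_const_zero] at h1
  exact (mul_eq_zero.1 h1).resolve_left card_ne

/-- The four letter term. -/
noncomputable def term (b b' : K) (d : T → K) (p q : T × T) (y : T → K) : ℝ :=
  e b (y p.1) * e b' (y p.2) * (e b (y q.1 + d q.1) * e b' (y q.2 + d q.2))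

theorem sum_term_zero (b b' : K) (d : T → K) (p q : T × T) (hp : p.1 ≠ p.2) (hq : q.1 ≠ q.2)
    (h1 : q ≠ p) (h2 : q ≠ p.swap) : ∑ y, term b b' d p q y = 0 := by
  by_cases hA : p.1 ≠ q.1 ∧ p.1 ≠ q.2
  · refine sum_eq_zero_of_single p.1 _ fun y => ?_
    have : ∀ a, term b b' d p q (y + Pi.single p.1 a)
        = e b (y p.1 + a) * (e b' (y p.2) * (e b (y q.1 + d q.1) * e b' (y q.2 + d q.2))) := by
      intro a
      simp only [term, Pi.add_apply, Pi.single_eq_same]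
      rw [Pi.single_eq_of_ne hp.symm, Pi.single_eq_of_ne hA.1.symm,
        Pi.single_eq_of_ne hA.2.symm]
      simp only [add_zero]
      ring
    rw [Finset.sum_congr rfl fun a _ => this a, ← Finset.sum_mul]
    have h0 : ∑ a, e b (y p.1 + a) = 0 := by
      rw [← sum_e_add b (y p.1)]
      exact Finset.sum_congr rfl fun a _ => by rw [add_comm]
    rw [h0, zero_mul]
  · have hB : p.2 ≠ q.1 ∧ p.2 ≠ q.2 := by
      rw [not_and_or, not_not, not_not] at hA
      obtain ⟨p1, p2⟩ := p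
      obtain ⟨q1, q2⟩ := q
      simp only [ne_eq, Prod.swap, Prod.mk.injEq, not_and] at *
      rcases hA with hA | hA
      · subst hA
        exact ⟨fun h => hp h.symm, fun h => h1 rfl h.symm⟩
      · subst hA
        exact ⟨fun h => h2 h.symm rfl, fun h => hp h.symm⟩
    refine sum_eq_zero_of_single p.2 _ fun y => ?_
    have : ∀ a, term b b' d p q (y + Pi.single p.2 a)
        = e b' (y p.2 + a) * (e b (y p.1) * (e b (y q.1 + d q.1) * e b' (y q.2 + d q.2))) := by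
      intro a
      simp only [term, Pi.add_apply, Pi.single_eq_same]
      rw [Pi.single_eq_of_ne hp, Pi.single_eq_of_ne hB.1.symm,
        Pi.single_eq_of_ne hB.2.symm]
      simp only [add_zero]
      ring
    rw [Finset.sum_congr rfl fun a _ => this a, ← Finset.sum_mul]
    have h0 : ∑ a, e b' (y p.2 + a) = 0 := by
      rw [← sum_e_add b' (y p.2)]
      exact Finset.sum_congr rfl fun a _ => by rw [add_comm]
    rw [h0, zero_mul]

/-- A product of two functions of two different letters. -/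
theorem sum_two (p : T × T) (hp : p.1 ≠ p.2) (F F' : K → ℝ) :
    (Fintype.card K : ℝ) ^ 2 * ∑ y : T → K, F (y p.1) * F' (y p.2)
      = (Fintype.card (T → K) : ℝ) * ((∑ z, F z) * ∑ z, F' z) := by
  rw [pow_two, mul_assoc, marg p.1, Finset.mul_sum]
  have h1 : ∀ y : T → K, ∑ a, F ((y + Pi.single p.1 a : T → K) p.1) * F' ((y + Pi.single p.1 a : T → K) p.2)
      = (∑ z, F z) * F' (y p.2) := by
    intro y
    rw [Finset.sum_mul, ← Equiv.sum_comp (Equiv.addLeft (y p.1)) (fun z => F z * F' (y p.2))]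
    refine Finset.sum_congr rfl fun a _ => ?_
    simp only [Pi.add_apply, Pi.single_eq_same, Equiv.coe_addLeft]
    rw [Pi.single_eq_of_ne hp.symm, add_zero]
  have h2 : ∑ y : T → K, (Fintype.card K : ℝ) *
      ∑ a, F ((y + Pi.single p.1 a : T → K) p.1) * F' ((y + Pi.single p.1 a : T → K) p.2)
      = (∑ z, F z) * ((Fintype.card K : ℝ) * ∑ y : T → K, F' (y p.2)) := by
    rw [Finset.mul_sum, Finset.mul_sum]
    refine Finset.sum_congr rfl fun y _ => ?_
    rw [h1 y]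
    ring
  have h3 : (Fintype.card K : ℝ) * ∑ y : T → K, F' (y p.2)
      = (Fintype.card (T → K) : ℝ) * ∑ z, F' z := by
    rw [marg p.2]
    have : ∀ y : T → K, ∑ a, F' ((y + Pi.single p.2 a : T → K) p.2) = ∑ z, F' z := by
      intro y
      rw [← Equiv.sum_comp (Equiv.addLeft (y p.2)) (fun z => F' z)]
      refine Finset.sum_congr rfl fun a _ => ?_
      simp only [Pi.add_apply, Pi.single_eq_same, Equiv.coe_addLeft]
    rw [Finset.sum_congr rfl fun y _ => this y, Finset.sum_const, Finset.card_univ,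
      nsmul_eq_mul]
  rw [h2, h3]
  ring

theorem sum_term_same (b b' : K) (d : T → K) (p : T × T) (hp : p.1 ≠ p.2) :
    (Fintype.card K : ℝ) ^ 2 * ∑ y, term b b' d p p y
      = (Fintype.card (T → K) : ℝ) * (corr b b (d p.1) * corr b' b' (d p.2)) := by
  refine Eq.trans ?_ (sum_two p hp (fun z => e b z * e b (z + d p.1))
    (fun z => e b' z * e b' (z + d p.2)))
  congr 1
  refine Finset.sum_congr rfl fun y _ => ?_
  simp only [term]
  ring

theorem sum_term_swap (b b' : K) (d : T → K) (p : T × T) (hp : p.1 ≠ p.2) :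
    (Fintype.card K : ℝ) ^ 2 * ∑ y, term b b' d p p.swap y
      = (Fintype.card (T → K) : ℝ) * (corr b b' (d p.1) * corr b' b (d p.2)) := by
  refine Eq.trans ?_ (sum_two p hp (fun z => e b z * e b' (z + d p.1))
    (fun z => e b' z * e b (z + d p.2)))
  congr 1
  refine Finset.sum_congr rfl fun y _ => ?_
  simp only [term, Prod.fst_swap, Prod.snd_swap]
  ring

/-- The off-diagonal sum of one node. -/
noncomputable def O (b b' : K) (y : T → K) : ℝ :=
  ∑ p ∈ (univ : Finset T).offDiag, e b (y p.1) * e b' (y p.2)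

noncomputable def R (b b' : K) (d : T → K) : ℝ :=
  ∑ p ∈ (univ : Finset T).offDiag,
    (corr b b (d p.1) * corr b' b' (d p.2) + corr b b' (d p.1) * corr b' b (d p.2))

theorem O_mul_O (b b' : K) (d y : T → K) :
    O b b' y * O b b' (y + d)
      = ∑ p ∈ (univ : Finset T).offDiag, ∑ q ∈ (univ : Finset T).offDiag,
          term b b' d p q y := by
  rw [O, O, Finset.sum_mul_sum]
  rfl

theorem one_node (b b' : K) (d : T → K) :
    (Fintype.card K : ℝ) ^ 2 * ∑ y, O b b' y * O b b' (y + d)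
      = (Fintype.card (T → K) : ℝ) * R b b' d := by
  have h1 : ∑ y, O b b' y * O b b' (y + d)
      = ∑ p ∈ (univ : Finset T).offDiag, ∑ q ∈ (univ : Finset T).offDiag,
          ∑ y, term b b' d p q y := by
    rw [Finset.sum_congr rfl fun y _ => O_mul_O b b' d y, Finset.sum_comm]
    exact Finset.sum_congr rfl fun p _ => Finset.sum_comm
  rw [h1, R, Finset.mul_sum, Finset.mul_sum]
  refine Finset.sum_congr rfl fun p hp => ?_
  have hp' : p.1 ≠ p.2 := (Finset.mem_offDiag.1 hp).2.2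
  have hps : p ≠ p.swap := by
    intro h
    exact hp' (congrArg Prod.fst h)
  have h2 : ∑ q ∈ (univ : Finset T).offDiag, ∑ y, term b b' d p q y
      = ∑ q ∈ ({p, p.swap} : Finset (T × T)), ∑ y, term b b' d p q y := by
    symm
    refine Finset.sum_subset ?_ ?_
    · intro q hq
      rw [Finset.mem_insert, Finset.mem_singleton] at hq
      rcases hq with rfl | rfl
      · exact hp
      · rw [Finset.mem_offDiag]
        exact ⟨Finset.mem_univ _, Finset.mem_univ _, fun h => hp' h.symm⟩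
    · intro q hq hq2
      rw [Finset.mem_insert, Finset.mem_singleton, not_or] at hq2
      exact sum_term_zero b b' d p q hp' (Finset.mem_offDiag.1 hq).2.2 hq2.1 hq2.2
  rw [h2, Finset.sum_pair hps, mul_add, sum_term_same b b' d p hp', sum_term_swap b b' d p hp']
  ring

end One

section Many

variable [Fintype A] [DecidableEq A] [Fintype T] [DecidableEq T]
variable [AddCommGroup K] [Fintype K] [DecidableEq K]
variable [AddCommGroup G] [Fintype G]
variable [AddCommGroup G₁] [Fintype G₁] [AddCommGroup G₂] [Fintype G₂]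

/-- `sum_shift` for sums of functions of few letters. -/
theorem sum_shift_sum (Φ : G →+ (A → T → K)) (hΦ : Four Φ) {I : Type*} (s : Finset I)
    (τ : I → A → Finset T) (hτ : ∀ i ∈ s, ∀ u, (τ i u).card ≤ 4)
    (f : I → (A → T → K) → ℝ) (hf : ∀ i ∈ s, DependsOn (τ i) (f i)) (x : A → T → K) :
    (Fintype.card (A → T → K) : ℝ) * ∑ g, ∑ i ∈ s, f i (x + Φ g)
      = (Fintype.card G : ℝ) * ∑ y, ∑ i ∈ s, f i y := by
  rw [Finset.sum_comm, Finset.mul_sum,
    Finset.sum_congr rfl fun i hi => sum_shift Φ hΦ (τ i) (hτ i hi) (f i) (hf i hi) x,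
    ← Finset.mul_sum, Finset.sum_comm]

noncomputable def kap (b b' : A → K) (y : A → T → K) : ℝ := ∏ u, O (b u) (b' u) (y u)

theorem kap_mul_kap (b b' : A → K) (y d : A → T → K) :
    kap b b' y * kap b b' (y + d)
      = ∑ r ∈ Fintype.piFinset fun _ : A =>
          (univ : Finset T).offDiag ×ˢ (univ : Finset T).offDiag,
          ∏ u, term (b u) (b' u) (d u) (r u).1 (r u).2 (y u) := by
  rw [kap, kap, ← Finset.prod_mul_distrib]
  have h : ∀ u, O (b u) (b' u) (y u) * O (b u) (b' u) ((y + d) u)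
      = ∑ r ∈ (univ : Finset T).offDiag ×ˢ (univ : Finset T).offDiag,
          term (b u) (b' u) (d u) r.1 r.2 (y u) := by
    intro u
    rw [Pi.add_apply, O_mul_O, Finset.sum_product]
  rw [Finset.prod_congr rfl fun u _ => h u, Finset.prod_univ_sum]

theorem sum_kap_mul_kap (b b' : A → K) (d : A → T → K) :
    ((Fintype.card K : ℝ) ^ 2) ^ Fintype.card A * ∑ y, kap b b' y * kap b b' (y + d)
      = (Fintype.card (A → T → K) : ℝ) * ∏ u, R (b u) (b' u) (d u) := by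
  have h1 : ∑ y : A → T → K, kap b b' y * kap b b' (y + d)
      = ∏ u, ∑ z : T → K, O (b u) (b' u) z * O (b u) (b' u) (z + d u) := by
    rw [Finset.prod_univ_sum, Fintype.piFinset_univ]
    refine Finset.sum_congr rfl fun y _ => ?_
    rw [kap, kap, ← Finset.prod_mul_distrib]
    rfl
  have h2 : ((Fintype.card K : ℝ) ^ 2) ^ Fintype.card A = ∏ _u : A, (Fintype.card K : ℝ) ^ 2 := by
    rw [Finset.prod_const, Finset.card_univ]
  rw [h1, h2, ← Finset.prod_mul_distrib, Finset.prod_congr rfl fun u _ => one_node _ _ _,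
    Finset.prod_mul_distrib, Finset.prod_const, Finset.card_univ]
  congr 1
  rw [Fintype.card_fun (α := A)]
  push_cast
  rfl

theorem shift_kap (Φ : G →+ (A → T → K)) (hΦ : Four Φ) (b b' : A → K) (x d : A → T → K) :
    ((Fintype.card K : ℝ) ^ 2) ^ Fintype.card A *
        ∑ g, kap b b' (x + Φ g) * kap b b' (x + Φ g + d)
      = (Fintype.card G : ℝ) * ∏ u, R (b u) (b' u) (d u) := by
  have hY : (Fintype.card (A → T → K) : ℝ) ≠ 0 := by
    have : 0 < Fintype.card (A → T → K) := Fintype.card_pos_iff.2 ⟨0⟩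
    positivity
  have h := sum_shift_sum Φ hΦ
    (Fintype.piFinset fun _ : A => (univ : Finset T).offDiag ×ˢ (univ : Finset T).offDiag)
    (fun r u => {(r u).1.1, (r u).1.2, (r u).2.1, (r u).2.2})
    (fun r _ u => Finset.card_le_four)
    (fun r y => ∏ u, term (b u) (b' u) (d u) (r u).1 (r u).2 (y u))
    (fun r _ y y' hyy => by
      refine Finset.prod_congr rfl fun u _ => ?_
      unfold term
      rw [hyy u (r u).1.1 (by simp), hyy u (r u).1.2 (by simp), hyy u (r u).2.1 (by simp),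
        hyy u (r u).2.2 (by simp)]) x
  simp only [← kap_mul_kap] at h
  have h2 := sum_kap_mul_kap b b' d
  apply mul_left_cancel₀ hY
  calc (Fintype.card (A → T → K) : ℝ) * (((Fintype.card K : ℝ) ^ 2) ^ Fintype.card A *
        ∑ g, kap b b' (x + Φ g) * kap b b' (x + Φ g + d))
      = ((Fintype.card K : ℝ) ^ 2) ^ Fintype.card A * ((Fintype.card (A → T → K) : ℝ) *
        ∑ g, kap b b' (x + Φ g) * kap b b' (x + Φ g + d)) := by ring
    _ = ((Fintype.card K : ℝ) ^ 2) ^ Fintype.card A * ((Fintype.card G : ℝ) *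
        ∑ y, kap b b' y * kap b b' (y + d)) := by rw [h]
    _ = (Fintype.card G : ℝ) * (((Fintype.card K : ℝ) ^ 2) ^ Fintype.card A *
        ∑ y, kap b b' y * kap b b' (y + d)) := by ring
    _ = _ := by rw [h2]; ring

/-- absolute values in `R` -/
noncomputable def Rabs (b b' : K) (d : T → K) : ℝ :=
  ∑ p ∈ (univ : Finset T).offDiag,
    (|corr b b (d p.1)| * |corr b' b' (d p.2)| + |corr b b' (d p.1)| * |corr b' b (d p.2)|)

theorem abs_R_le (b b' : K) (d : T → K) : |R b b' d| ≤ Rabs b b' d := by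
  refine (Finset.abs_sum_le_sum_abs _ _).trans (Finset.sum_le_sum fun p _ => ?_)
  refine (abs_add_le _ _).trans ?_
  rw [abs_mul, abs_mul]

theorem Rabs_nonneg (b b' : K) (d : T → K) : 0 ≤ Rabs b b' d :=
  (abs_nonneg _).trans (abs_R_le b b' d)

theorem sum_Rabs (b b' : K) :
    (Fintype.card K : ℝ) ^ 2 * ∑ z : T → K, Rabs b b' z
      ≤ (Fintype.card (T → K) : ℝ) * (8 * (Fintype.card T : ℝ) ^ 2) := by
  have h1 : (Fintype.card K : ℝ) ^ 2 * ∑ z : T → K, Rabs b b' z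
      = ∑ p ∈ (univ : Finset T).offDiag,
        ((Fintype.card K : ℝ) ^ 2 * ∑ z : T → K, |corr b b (z p.1)| * |corr b' b' (z p.2)|
          + (Fintype.card K : ℝ) ^ 2 * ∑ z : T → K, |corr b b' (z p.1)| * |corr b' b (z p.2)|) := by
    simp only [Rabs]
    rw [Finset.sum_comm, Finset.mul_sum]
    refine Finset.sum_congr rfl fun p _ => ?_
    rw [Finset.sum_add_distrib, mul_add]
  have hc : (0 : ℝ) ≤ (Fintype.card (T → K) : ℝ) := by positivity
  have h2 : ∀ p ∈ (univ : Finset T).offDiag,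
      ((Fintype.card K : ℝ) ^ 2 * ∑ z : T → K, |corr b b (z p.1)| * |corr b' b' (z p.2)|
          + (Fintype.card K : ℝ) ^ 2 * ∑ z : T → K, |corr b b' (z p.1)| * |corr b' b (z p.2)|)
        ≤ (Fintype.card (T → K) : ℝ) * 8 := by
    intro p hp
    have hp' : p.1 ≠ p.2 := (Finset.mem_offDiag.1 hp).2.2
    rw [sum_two p hp' (fun z => |corr b b z|) (fun z => |corr b' b' z|),
      sum_two p hp' (fun z => |corr b b' z|) (fun z => |corr b' b z|), ← mul_add]
    refine mul_le_mul_of_nonneg_left ?_ hc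
    have a1 := sum_abs_corr b b
    have a2 := sum_abs_corr b' b'
    have a3 := sum_abs_corr b b'
    have a4 := sum_abs_corr b' b
    have p1 : 0 ≤ ∑ d, |corr b b d| := Finset.sum_nonneg fun _ _ => abs_nonneg _
    have p2 : 0 ≤ ∑ d, |corr b' b' d| := Finset.sum_nonneg fun _ _ => abs_nonneg _
    have p3 : 0 ≤ ∑ d, |corr b b' d| := Finset.sum_nonneg fun _ _ => abs_nonneg _
    have p4 : 0 ≤ ∑ d, |corr b' b d| := Finset.sum_nonneg fun _ _ => abs_nonneg _
    have m1 : (∑ d, |corr b b d|) * ∑ d, |corr b' b' d| ≤ 2 * 2 :=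
      mul_le_mul a1 a2 p2 (by norm_num)
    have m2 : (∑ d, |corr b b' d|) * ∑ d, |corr b' b d| ≤ 2 * 2 :=
      mul_le_mul a3 a4 p4 (by norm_num)
    linarith
  rw [h1]
  refine (Finset.sum_le_sum h2).trans ?_
  rw [Finset.sum_const, nsmul_eq_mul]
  have h3 : (((univ : Finset T).offDiag.card : ℕ) : ℝ) ≤ (Fintype.card T : ℝ) ^ 2 := by
    rw [Finset.offDiag_card, Finset.card_univ]
    have : Fintype.card T * Fintype.card T - Fintype.card T ≤ Fintype.card T ^ 2 := by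
      rw [pow_two]; exact Nat.sub_le _ _
    exact_mod_cast this
  have h4 : (0 : ℝ) ≤ (Fintype.card (T → K) : ℝ) * 8 := by positivity
  calc (((univ : Finset T).offDiag.card : ℕ) : ℝ) * ((Fintype.card (T → K) : ℝ) * 8)
      ≤ (Fintype.card T : ℝ) ^ 2 * ((Fintype.card (T → K) : ℝ) * 8) :=
        mul_le_mul_of_nonneg_right h3 h4
    _ = _ := by ring

/-- The average of `∏ Rabs` over the shifts. -/
theorem shift_Rabs (Ψ : G →+ (A → T → K)) (hΨ : Four Ψ) (b b' : A → K) :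
    ((Fintype.card K : ℝ) ^ 2) ^ Fintype.card A * ∑ g, ∏ u, Rabs (b u) (b' u) (Ψ g u)
      ≤ (Fintype.card G : ℝ) * (8 * (Fintype.card T : ℝ) ^ 2) ^ Fintype.card A := by
  have hY0 : 0 < Fintype.card (A → T → K) := Fintype.card_pos_iff.2 ⟨0⟩
  have hY : (0 : ℝ) < (Fintype.card (A → T → K) : ℝ) := by exact_mod_cast hY0
  have key : ∀ y : A → T → K, ∏ u, Rabs (b u) (b' u) (y u)
      = ∑ r ∈ Fintype.piFinset fun _ : A => (univ : Finset T).offDiag,
        ∏ u, (|corr (b u) (b u) (y u (r u).1)| * |corr (b' u) (b' u) (y u (r u).2)|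
          + |corr (b u) (b' u) (y u (r u).1)| * |corr (b' u) (b u) (y u (r u).2)|) := by
    intro y
    simp only [Rabs]
    rw [Finset.prod_univ_sum]
  have h := sum_shift_sum Ψ hΨ
    (Fintype.piFinset fun _ : A => (univ : Finset T).offDiag)
    (fun r u => {(r u).1, (r u).2})
    (fun r _ u => (Finset.card_le_two).trans (by norm_num))
    (fun r y => ∏ u, (|corr (b u) (b u) (y u (r u).1)| * |corr (b' u) (b' u) (y u (r u).2)|
          + |corr (b u) (b' u) (y u (r u).1)| * |corr (b' u) (b u) (y u (r u).2)|))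
    (fun r _ y y' hyy => by
      refine Finset.prod_congr rfl fun u _ => ?_
      rw [hyy u (r u).1 (by simp), hyy u (r u).2 (by simp)]) 0
  simp only [← key, zero_add] at h
  have h1 : ∑ y : A → T → K, ∏ u, Rabs (b u) (b' u) (y u)
      = ∏ u, ∑ z : T → K, Rabs (b u) (b' u) z := by
    rw [Finset.prod_univ_sum, Fintype.piFinset_univ]
  have h2 : ((Fintype.card K : ℝ) ^ 2) ^ Fintype.card A *
      ∏ u, ∑ z : T → K, Rabs (b u) (b' u) z
      ≤ (Fintype.card (A → T → K) : ℝ) * (8 * (Fintype.card T : ℝ) ^ 2) ^ Fintype.card A := by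
    have e1 : ((Fintype.card K : ℝ) ^ 2) ^ Fintype.card A
        = ∏ _u : A, (Fintype.card K : ℝ) ^ 2 := by
      rw [Finset.prod_const, Finset.card_univ]
    rw [e1, ← Finset.prod_mul_distrib]
    refine (Finset.prod_le_prod (fun u _ => ?_) (fun u _ => sum_Rabs (b u) (b' u))).trans ?_
    · exact mul_nonneg (by positivity) (Finset.sum_nonneg fun _ _ => Rabs_nonneg _ _ _)
    · rw [Finset.prod_const, Finset.card_univ, mul_pow]
      refine le_of_eq ?_
      congr 1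
      rw [Fintype.card_fun (α := A)]
      push_cast
      rfl
  refine le_of_mul_le_mul_left ?_ hY
  calc (Fintype.card (A → T → K) : ℝ) * (((Fintype.card K : ℝ) ^ 2) ^ Fintype.card A *
        ∑ g, ∏ u, Rabs (b u) (b' u) (Ψ g u))
      = ((Fintype.card K : ℝ) ^ 2) ^ Fintype.card A * ((Fintype.card (A → T → K) : ℝ) *
        ∑ g, ∏ u, Rabs (b u) (b' u) (Ψ g u)) := by ring
    _ = (Fintype.card G : ℝ) * (((Fintype.card K : ℝ) ^ 2) ^ Fintype.card A *
      ∏ u, ∑ z : T → K, Rabs (b u) (b' u) z) := by rw [h, h1]; ring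
    _ ≤ (Fintype.card G : ℝ) * ((Fintype.card (A → T → K) : ℝ) *
        (8 * (Fintype.card T : ℝ) ^ 2) ^ Fintype.card A) :=
        mul_le_mul_of_nonneg_left h2 (by positivity)
    _ = _ := by ring

/-- **The bilinear bound.** -/
theorem bilinear_sq (Φ : G₁ →+ (A → T → K)) (hΦ : Four Φ) (Ψ : G₂ →+ (A → T → K)) (hΨ : Four Ψ)
    (b b' : A → K) (x : A → T → K) (H : G₁ → ℝ) (F : G₂ → ℝ) (hH : ∀ g, |H g| ≤ 1)
    (hF : ∀ g, |F g| ≤ 1) :
    (((Fintype.card K : ℝ) ^ 2) ^ Fintype.card A *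
        |∑ g₁, ∑ g₂, H g₁ * F g₂ * kap b b' (x + Φ g₁ + Ψ g₂)|) ^ 2
      ≤ ((Fintype.card G₁ : ℝ) * (Fintype.card G₂ : ℝ)) ^ 2 *
        (8 * (Fintype.card T : ℝ) ^ 2) ^ Fintype.card A := by
  set c : ℝ := ((Fintype.card K : ℝ) ^ 2) ^ Fintype.card A with hc
  have hc0 : 0 ≤ c := by positivity
  set N₁ : ℝ := (Fintype.card G₁ : ℝ) with hN₁
  set N₂ : ℝ := (Fintype.card G₂ : ℝ) with hN₂
  have hN₁0 : 0 ≤ N₁ := by positivity
  have hN₂0 : 0 ≤ N₂ := by positivity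
  -- step 1
  have s1 : |∑ g₁, ∑ g₂, H g₁ * F g₂ * kap b b' (x + Φ g₁ + Ψ g₂)|
      ≤ ∑ g₁, |∑ g₂, F g₂ * kap b b' (x + Φ g₁ + Ψ g₂)| := by
    refine (Finset.abs_sum_le_sum_abs _ _).trans (Finset.sum_le_sum fun g₁ _ => ?_)
    have : ∑ g₂, H g₁ * F g₂ * kap b b' (x + Φ g₁ + Ψ g₂)
        = H g₁ * ∑ g₂, F g₂ * kap b b' (x + Φ g₁ + Ψ g₂) := by
      rw [Finset.mul_sum]
      exact Finset.sum_congr rfl fun _ _ => by ring
    rw [this, abs_mul]
    exact mul_le_of_le_one_left (abs_nonneg _) (hH g₁)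
  -- step 2
  have s2 : (∑ g₁, |∑ g₂, F g₂ * kap b b' (x + Φ g₁ + Ψ g₂)|) ^ 2
      ≤ N₁ * ∑ g₁, (∑ g₂, F g₂ * kap b b' (x + Φ g₁ + Ψ g₂)) ^ 2 := by
    have := sq_sum_le_card_mul_sum_sq (s := (univ : Finset G₁))
      (f := fun g₁ => |∑ g₂, F g₂ * kap b b' (x + Φ g₁ + Ψ g₂)|)
    simpa [Finset.card_univ, sq_abs] using this
  -- step 3
  have s3 : ∑ g₁, (∑ g₂, F g₂ * kap b b' (x + Φ g₁ + Ψ g₂)) ^ 2
      ≤ ∑ g₂, ∑ g₂', |∑ g₁, kap b b' (x + Ψ g₂ + Φ g₁)
          * kap b b' (x + Ψ g₂ + Φ g₁ + Ψ (g₂' - g₂))| := by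
    have e1 : ∑ g₁, (∑ g₂, F g₂ * kap b b' (x + Φ g₁ + Ψ g₂)) ^ 2
        = ∑ g₂, ∑ g₂', F g₂ * F g₂' * ∑ g₁, kap b b' (x + Ψ g₂ + Φ g₁)
          * kap b b' (x + Ψ g₂ + Φ g₁ + Ψ (g₂' - g₂)) := by
      have e2 : ∀ g₁, (∑ g₂, F g₂ * kap b b' (x + Φ g₁ + Ψ g₂)) ^ 2
          = ∑ g₂, ∑ g₂', F g₂ * F g₂' * (kap b b' (x + Ψ g₂ + Φ g₁)
          * kap b b' (x + Ψ g₂ + Φ g₁ + Ψ (g₂' - g₂))) := by
        intro g₁
        rw [pow_two, Finset.sum_mul_sum]
        refine Finset.sum_congr rfl fun g₂ _ => Finset.sum_congr rfl fun g₂' _ => ?_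
        have i1 : x + Φ g₁ + Ψ g₂ = x + Ψ g₂ + Φ g₁ := by abel
        have i2 : x + Φ g₁ + Ψ g₂' = x + Ψ g₂ + Φ g₁ + Ψ (g₂' - g₂) := by
          rw [map_sub]; abel
        rw [i1, i2]
        ring
      rw [Finset.sum_congr rfl fun g₁ _ => e2 g₁, Finset.sum_comm]
      refine Finset.sum_congr rfl fun g₂ _ => ?_
      rw [Finset.sum_comm]
      refine Finset.sum_congr rfl fun g₂' _ => ?_
      rw [Finset.mul_sum]
    rw [e1]
    refine Finset.sum_le_sum fun g₂ _ => Finset.sum_le_sum fun g₂' _ => ?_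
    refine (le_abs_self _).trans ?_
    rw [abs_mul, abs_mul]
    refine mul_le_of_le_one_left (abs_nonneg _) ?_
    exact mul_le_one₀ (hF g₂) (abs_nonneg _) (hF g₂')
  -- step 4
  have s4 : ∀ g₂ g₂' : G₂, c * |∑ g₁, kap b b' (x + Ψ g₂ + Φ g₁)
          * kap b b' (x + Ψ g₂ + Φ g₁ + Ψ (g₂' - g₂))|
      ≤ N₁ * ∏ u, Rabs (b u) (b' u) (Ψ (g₂' - g₂) u) := by
    intro g₂ g₂'
    have h := shift_kap Φ hΦ b b' (x + Ψ g₂) (Ψ (g₂' - g₂))
    calc c * |∑ g₁, kap b b' (x + Ψ g₂ + Φ g₁)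
          * kap b b' (x + Ψ g₂ + Φ g₁ + Ψ (g₂' - g₂))|
        = |c * ∑ g₁, kap b b' (x + Ψ g₂ + Φ g₁)
          * kap b b' (x + Ψ g₂ + Φ g₁ + Ψ (g₂' - g₂))| := by
          rw [abs_mul, abs_of_nonneg hc0]
      _ = |N₁ * ∏ u, R (b u) (b' u) (Ψ (g₂' - g₂) u)| := by rw [hc, h]
      _ = N₁ * ∏ u, |R (b u) (b' u) (Ψ (g₂' - g₂) u)| := by
          rw [abs_mul, abs_of_nonneg hN₁0, Finset.abs_prod]
      _ ≤ _ := by
          refine mul_le_mul_of_nonneg_left ?_ hN₁0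
          exact Finset.prod_le_prod (fun _ _ => abs_nonneg _) fun u _ => abs_R_le _ _ _
  have s5 : c * (c * ∑ g₂, ∑ g₂', |∑ g₁, kap b b' (x + Ψ g₂ + Φ g₁)
          * kap b b' (x + Ψ g₂ + Φ g₁ + Ψ (g₂' - g₂))|)
      ≤ N₁ * (N₂ * (N₂ * (8 * (Fintype.card T : ℝ) ^ 2) ^ Fintype.card A)) := by
    have t1 : c * ∑ g₂, ∑ g₂', |∑ g₁, kap b b' (x + Ψ g₂ + Φ g₁)
          * kap b b' (x + Ψ g₂ + Φ g₁ + Ψ (g₂' - g₂))|
        ≤ ∑ g₂ : G₂, ∑ g₂' : G₂, N₁ * ∏ u, Rabs (b u) (b' u) (Ψ (g₂' - g₂) u) := by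
      rw [Finset.mul_sum]
      refine Finset.sum_le_sum fun g₂ _ => ?_
      rw [Finset.mul_sum]
      exact Finset.sum_le_sum fun g₂' _ => s4 g₂ g₂'
    have t2 : ∑ g₂ : G₂, ∑ g₂' : G₂, N₁ * ∏ u, Rabs (b u) (b' u) (Ψ (g₂' - g₂) u)
        = N₁ * (N₂ * ∑ g, ∏ u, Rabs (b u) (b' u) (Ψ g u)) := by
      have : ∀ g₂ : G₂, ∑ g₂' : G₂, N₁ * ∏ u, Rabs (b u) (b' u) (Ψ (g₂' - g₂) u)
          = N₁ * ∑ g, ∏ u, Rabs (b u) (b' u) (Ψ g u) := by
        intro g₂
        rw [← Finset.mul_sum]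
        congr 1
        exact Equiv.sum_comp (Equiv.subRight g₂) (fun g => ∏ u, Rabs (b u) (b' u) (Ψ g u))
      rw [Finset.sum_congr rfl fun g₂ _ => this g₂, Finset.sum_const, Finset.card_univ,
        nsmul_eq_mul]
      ring
    calc c * (c * ∑ g₂, ∑ g₂', |∑ g₁, kap b b' (x + Ψ g₂ + Φ g₁)
          * kap b b' (x + Ψ g₂ + Φ g₁ + Ψ (g₂' - g₂))|)
        ≤ c * (N₁ * (N₂ * ∑ g, ∏ u, Rabs (b u) (b' u) (Ψ g u))) :=
          mul_le_mul_of_nonneg_left (t2 ▸ t1) hc0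
      _ = N₁ * (N₂ * (c * ∑ g, ∏ u, Rabs (b u) (b' u) (Ψ g u))) := by ring
      _ ≤ _ := by
          refine mul_le_mul_of_nonneg_left (mul_le_mul_of_nonneg_left ?_ hN₂0) hN₁0
          exact shift_Rabs Ψ hΨ b b'
  set X := |∑ g₁, ∑ g₂, H g₁ * F g₂ * kap b b' (x + Φ g₁ + Ψ g₂)| with hX
  have hX0 : 0 ≤ X := abs_nonneg _
  have s6 : X ^ 2 ≤ N₁ * ∑ g₂, ∑ g₂', |∑ g₁, kap b b' (x + Ψ g₂ + Φ g₁)
          * kap b b' (x + Ψ g₂ + Φ g₁ + Ψ (g₂' - g₂))| :=
    (pow_le_pow_left₀ hX0 s1 2).trans (s2.trans (mul_le_mul_of_nonneg_left s3 hN₁0))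
  calc (c * X) ^ 2 = c * (c * X ^ 2) := by ring
    _ ≤ c * (c * (N₁ * ∑ g₂, ∑ g₂', |∑ g₁, kap b b' (x + Ψ g₂ + Φ g₁)
          * kap b b' (x + Ψ g₂ + Φ g₁ + Ψ (g₂' - g₂))|)) :=
        mul_le_mul_of_nonneg_left (mul_le_mul_of_nonneg_left s6 hc0) hc0
    _ = N₁ * (c * (c * ∑ g₂, ∑ g₂', |∑ g₁, kap b b' (x + Ψ g₂ + Φ g₁)
          * kap b b' (x + Ψ g₂ + Φ g₁ + Ψ (g₂' - g₂))|)) := by ring
    _ ≤ N₁ * (N₁ * (N₂ * (N₂ * (8 * (Fintype.card T : ℝ) ^ 2) ^ Fintype.card A))) :=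
        mul_le_mul_of_nonneg_left s5 hN₁0
    _ = _ := by ring

theorem bilinear (Φ : G₁ →+ (A → T → K)) (hΦ : Four Φ) (Ψ : G₂ →+ (A → T → K)) (hΨ : Four Ψ)
    (b b' : A → K) (x : A → T → K) (H : G₁ → ℝ) (F : G₂ → ℝ) (hH : ∀ g, |H g| ≤ 1)
    (hF : ∀ g, |F g| ≤ 1) :
    ((Fintype.card K : ℝ) ^ 2) ^ Fintype.card A *
        |∑ g₁, ∑ g₂, H g₁ * F g₂ * kap b b' (x + Φ g₁ + Ψ g₂)|
      ≤ ((Fintype.card G₁ : ℝ) * (Fintype.card G₂ : ℝ)) *
        (3 * (Fintype.card T : ℝ)) ^ Fintype.card A := by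
  refine le_of_sq_le_sq ?_ (by positivity)
  refine (bilinear_sq Φ hΦ Ψ hΨ b b' x H F hH hF).trans ?_
  have h1 : (8 * (Fintype.card T : ℝ) ^ 2) ^ Fintype.card A
      ≤ ((3 * (Fintype.card T : ℝ)) ^ 2) ^ Fintype.card A := by
    refine pow_le_pow_left₀ (by positivity) ?_ _
    have : (0 : ℝ) ≤ (Fintype.card T : ℝ) ^ 2 := by positivity
    nlinarith
  calc ((Fintype.card G₁ : ℝ) * (Fintype.card G₂ : ℝ)) ^ 2 *
        (8 * (Fintype.card T : ℝ) ^ 2) ^ Fintype.card A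
      ≤ ((Fintype.card G₁ : ℝ) * (Fintype.card G₂ : ℝ)) ^ 2 *
        ((3 * (Fintype.card T : ℝ)) ^ 2) ^ Fintype.card A :=
        mul_le_mul_of_nonneg_left h1 (by positivity)
    _ = (((Fintype.card G₁ : ℝ) * (Fintype.card G₂ : ℝ)) *
        (3 * (Fintype.card T : ℝ)) ^ Fintype.card A) ^ 2 := by
        rw [mul_pow (_ * _) _ 2, ← pow_mul, ← pow_mul, mul_comm 2]

end Many

section Z

variable [Fintype A] [DecidableEq A] [Fintype T] [DecidableEq T]
variable [AddCommGroup K] [Fintype K] [DecidableEq K] [Fintype P]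
variable [AddCommGroup G₁] [Fintype G₁] [AddCommGroup G₂] [Fintype G₂]

/-- the part of block `k` -/
noncomputable def part (a c : K → P → ℝ) (k : K) : ℝ :=
  (∑ p, a k p * c k p) / (Fintype.card P : ℝ)

/-- the part of everything -/
noncomputable def rho (a c : K → P → ℝ) : ℝ :=
  (∑ k, ∑ p, a k p * c k p) / ((Fintype.card K : ℝ) * (Fintype.card P : ℝ))

theorem part_sub_rho [Nonempty P] (a c : K → P → ℝ) (z : K) :
    (Fintype.card P : ℝ) * (part a c z - rho a c)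
      = ∑ j : K × P, e j.1 z * (a j.1 j.2 * c j.1 j.2) := by
  have hP : (Fintype.card P : ℝ) ≠ 0 := by
    have : 0 < Fintype.card P := Fintype.card_pos
    positivity
  have hK : (Fintype.card K : ℝ) ≠ 0 := card_ne
  rw [Fintype.sum_prod_type]
  have h1 : ∀ k : K, ∑ p, e k z * (a k p * c k p)
      = (if z = k then ∑ p, a k p * c k p else 0)
        - 1 / (Fintype.card K : ℝ) * ∑ p, a k p * c k p := by
    intro k
    rw [← Finset.mul_sum, e]
    split_ifs <;> ring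
  rw [Finset.sum_congr rfl fun k _ => h1 k, Finset.sum_sub_distrib, ← Finset.mul_sum,
    Finset.sum_ite_eq Finset.univ z, if_pos (Finset.mem_univ _), part, rho]
  field_simp

/-- the off-diagonal products of one node -/
noncomputable def Off (a c : K → P → ℝ) (y : T → K) : ℝ :=
  ∑ p ∈ (univ : Finset T).offDiag, (part a c (y p.1) - rho a c) * (part a c (y p.2) - rho a c)

theorem Off_eq [Nonempty P] (a c : K → P → ℝ) (y : T → K) :
    (Fintype.card P : ℝ) ^ 2 * Off a c y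
      = ∑ j : (K × P) × (K × P), O j.1.1 j.2.1 y *
          ((a j.1.1 j.1.2 * a j.2.1 j.2.2) * (c j.1.1 j.1.2 * c j.2.1 j.2.2)) := by
  rw [Off, Finset.mul_sum]
  have h1 : ∀ p : T × T, (Fintype.card P : ℝ) ^ 2 *
      ((part a c (y p.1) - rho a c) * (part a c (y p.2) - rho a c))
      = ∑ j : (K × P) × (K × P), (e j.1.1 (y p.1) * e j.2.1 (y p.2)) *
          ((a j.1.1 j.1.2 * a j.2.1 j.2.2) * (c j.1.1 j.1.2 * c j.2.1 j.2.2)) := by
    intro p
    have : (Fintype.card P : ℝ) ^ 2 *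
      ((part a c (y p.1) - rho a c) * (part a c (y p.2) - rho a c))
      = ((Fintype.card P : ℝ) * (part a c (y p.1) - rho a c)) *
        ((Fintype.card P : ℝ) * (part a c (y p.2) - rho a c)) := by ring
    rw [this, part_sub_rho, part_sub_rho, Finset.sum_mul_sum]
    symm
    rw [Fintype.sum_prod_type (γ := ℝ) (α₁ := K × P) (α₂ := K × P)]
    refine Finset.sum_congr rfl fun i _ => Finset.sum_congr rfl fun j _ => ?_
    ring
  rw [Finset.sum_congr rfl fun p _ => h1 p, Finset.sum_comm]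
  refine Finset.sum_congr rfl fun j _ => ?_
  rw [O, Finset.sum_mul]

/-- **Moment of the off-diagonal products**, all nodes. -/
theorem moment_off [Nonempty P] (Φ : G₁ →+ (A → T → K)) (hΦ : Four Φ)
    (Ψ : G₂ →+ (A → T → K)) (hΨ : Four Ψ) (x : A → T → K)
    (f₁ : G₂ → K → P → ℝ) (f₂ : G₁ → K → P → ℝ)
    (h₁ : ∀ g k p, 0 ≤ f₁ g k p ∧ f₁ g k p ≤ 1) (h₂ : ∀ g k p, 0 ≤ f₂ g k p ∧ f₂ g k p ≤ 1) :
    ∑ g₁, ∑ g₂, ∏ u, Off (f₁ g₂) (f₂ g₁) ((x + Φ g₁ + Ψ g₂) u)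
      ≤ ((Fintype.card G₁ : ℝ) * (Fintype.card G₂ : ℝ)) *
        (3 * (Fintype.card T : ℝ)) ^ Fintype.card A := by
  have hP0 : 0 < Fintype.card P := Fintype.card_pos
  have hK0 : 0 < Fintype.card K := Fintype.card_pos_iff.2 ⟨0⟩
  have hP : (0 : ℝ) < (Fintype.card P : ℝ) := by exact_mod_cast hP0
  have hK : (0 : ℝ) < (Fintype.card K : ℝ) := by exact_mod_cast hK0
  set M : ℝ := ((Fintype.card G₁ : ℝ) * (Fintype.card G₂ : ℝ)) *
        (3 * (Fintype.card T : ℝ)) ^ Fintype.card A with hM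
  have hM0 : 0 ≤ M := by positivity
  -- expansion
  have e1 : ((Fintype.card P : ℝ) ^ 2) ^ Fintype.card A *
      ∑ g₁, ∑ g₂, ∏ u, Off (f₁ g₂) (f₂ g₁) ((x + Φ g₁ + Ψ g₂) u)
      = ∑ j : A → (K × P) × (K × P), ∑ g₁, ∑ g₂,
          (∏ u, (f₂ g₁ (j u).1.1 (j u).1.2 * f₂ g₁ (j u).2.1 (j u).2.2)) *
          (∏ u, (f₁ g₂ (j u).1.1 (j u).1.2 * f₁ g₂ (j u).2.1 (j u).2.2)) *
          kap (fun u => (j u).1.1) (fun u => (j u).2.1) (x + Φ g₁ + Ψ g₂) := by
    have e2 : ∀ g₁ g₂, ((Fintype.card P : ℝ) ^ 2) ^ Fintype.card A *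
        ∏ u, Off (f₁ g₂) (f₂ g₁) ((x + Φ g₁ + Ψ g₂) u)
        = ∑ j : A → (K × P) × (K × P),
          (∏ u, (f₂ g₁ (j u).1.1 (j u).1.2 * f₂ g₁ (j u).2.1 (j u).2.2)) *
          (∏ u, (f₁ g₂ (j u).1.1 (j u).1.2 * f₁ g₂ (j u).2.1 (j u).2.2)) *
          kap (fun u => (j u).1.1) (fun u => (j u).2.1) (x + Φ g₁ + Ψ g₂) := by
      intro g₁ g₂
      have e3 : ((Fintype.card P : ℝ) ^ 2) ^ Fintype.card A
          = ∏ _u : A, (Fintype.card P : ℝ) ^ 2 := by
        rw [Finset.prod_const, Finset.card_univ]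
      rw [e3, ← Finset.prod_mul_distrib, Finset.prod_congr rfl fun u _ => Off_eq _ _ _,
        Finset.prod_univ_sum, Fintype.piFinset_univ]
      refine Finset.sum_congr rfl fun j _ => ?_
      rw [kap, ← Finset.prod_mul_distrib, ← Finset.prod_mul_distrib]
      exact Finset.prod_congr rfl fun u _ => by ring
    rw [Finset.mul_sum, Finset.sum_comm (s := (univ : Finset (A → (K × P) × (K × P))))]
    refine Finset.sum_congr rfl fun g₁ _ => ?_
    rw [Finset.mul_sum, Finset.sum_comm (s := (univ : Finset (A → (K × P) × (K × P))))]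
    exact Finset.sum_congr rfl fun g₂ _ => e2 g₁ g₂
  have prod_le : ∀ (q : A → ℝ), (∀ u, 0 ≤ q u ∧ q u ≤ 1) → |∏ u, q u| ≤ 1 := by
    intro q hq
    rw [abs_of_nonneg (Finset.prod_nonneg fun u _ => (hq u).1)]
    exact Finset.prod_le_one (fun u _ => (hq u).1) fun u _ => (hq u).2
  have e4 : ∀ j : A → (K × P) × (K × P),
      ((Fintype.card K : ℝ) ^ 2) ^ Fintype.card A * ∑ g₁, ∑ g₂,
          (∏ u, (f₂ g₁ (j u).1.1 (j u).1.2 * f₂ g₁ (j u).2.1 (j u).2.2)) *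
          (∏ u, (f₁ g₂ (j u).1.1 (j u).1.2 * f₁ g₂ (j u).2.1 (j u).2.2)) *
          kap (fun u => (j u).1.1) (fun u => (j u).2.1) (x + Φ g₁ + Ψ g₂) ≤ M := by
    intro j
    refine le_trans (mul_le_mul_of_nonneg_left (le_abs_self _) (by positivity)) ?_
    refine bilinear Φ hΦ Ψ hΨ (fun u => (j u).1.1) (fun u => (j u).2.1) x
      (fun g₁ => ∏ u, (f₂ g₁ (j u).1.1 (j u).1.2 * f₂ g₁ (j u).2.1 (j u).2.2))
      (fun g₂ => ∏ u, (f₁ g₂ (j u).1.1 (j u).1.2 * f₁ g₂ (j u).2.1 (j u).2.2)) ?_ ?_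
    · intro g
      refine prod_le _ fun u => ⟨mul_nonneg (h₂ _ _ _).1 (h₂ _ _ _).1, ?_⟩
      exact mul_le_one₀ (h₂ _ _ _).2 (h₂ _ _ _).1 (h₂ _ _ _).2
    · intro g
      refine prod_le _ fun u => ⟨mul_nonneg (h₁ _ _ _).1 (h₁ _ _ _).1, ?_⟩
      exact mul_le_one₀ (h₁ _ _ _).2 (h₁ _ _ _).1 (h₁ _ _ _).2
  have e5 : ((Fintype.card K : ℝ) ^ 2) ^ Fintype.card A *
      (((Fintype.card P : ℝ) ^ 2) ^ Fintype.card A *
      ∑ g₁, ∑ g₂, ∏ u, Off (f₁ g₂) (f₂ g₁) ((x + Φ g₁ + Ψ g₂) u))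
      ≤ (Fintype.card (A → (K × P) × (K × P)) : ℝ) * M := by
    rw [e1, Finset.mul_sum]
    refine (Finset.sum_le_sum fun j _ => e4 j).trans ?_
    rw [Finset.sum_const, Finset.card_univ, nsmul_eq_mul]
  have e6 : (Fintype.card (A → (K × P) × (K × P)) : ℝ)
      = ((Fintype.card K : ℝ) ^ 2) ^ Fintype.card A *
        ((Fintype.card P : ℝ) ^ 2) ^ Fintype.card A := by
    rw [Fintype.card_fun, Fintype.card_prod, Fintype.card_prod, ← mul_pow]
    push_cast
    congr 1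
    ring
  rw [e6, mul_assoc] at e5
  have c1 : (0 : ℝ) < ((Fintype.card K : ℝ) ^ 2) ^ Fintype.card A := by positivity
  have c2 : (0 : ℝ) < ((Fintype.card P : ℝ) ^ 2) ^ Fintype.card A := by positivity
  exact le_of_mul_le_mul_left (le_of_mul_le_mul_left e5 c1) c2

omit [Fintype A] [DecidableEq A] [DecidableEq T] [DecidableEq K] [Fintype K] [Fintype T] in
/-- restriction to the nodes of `B` -/
def restr [AddCommGroup G] (B : Finset A) (Φ : G →+ (A → T → K)) : G →+ (B → T → K) where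
  toFun g u := Φ g u
  map_zero' := by
    funext u
    simp
  map_add' g g' := by
    funext u
    simp

omit [Fintype A] [Fintype T] [DecidableEq T] [Fintype K] [DecidableEq K] in
theorem four_restr [AddCommGroup G] (B : Finset A) (Φ : G →+ (A → T → K)) (hΦ : Four Φ) :
    Four (restr B Φ) := by
  intro τ hτ y
  obtain ⟨g, hg⟩ := hΦ (fun u => if h : u ∈ B then τ ⟨u, h⟩ else ∅)
    (fun u => by
      by_cases h : u ∈ B
      · simpa [h] using hτ ⟨u, h⟩
      · simp [h])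
    (fun u => if h : u ∈ B then y ⟨u, h⟩ else 0)
  refine ⟨g, fun u t ht => ?_⟩
  have h := hg u t (by simpa [u.2] using ht)
  simpa [u.2, restr] using h

omit [AddCommGroup K] in
theorem part_mem [Nonempty P] (a c : K → P → ℝ) (ha : ∀ k p, 0 ≤ a k p ∧ a k p ≤ 1)
    (hc : ∀ k p, 0 ≤ c k p ∧ c k p ≤ 1) (k : K) : 0 ≤ part a c k ∧ part a c k ≤ 1 := by
  have hP0 : 0 < Fintype.card P := Fintype.card_pos
  have hP : (0 : ℝ) < (Fintype.card P : ℝ) := by exact_mod_cast hP0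
  constructor
  · exact div_nonneg (Finset.sum_nonneg fun p _ => mul_nonneg (ha k p).1 (hc k p).1) hP.le
  · rw [part, div_le_one hP]
    calc ∑ p, a k p * c k p ≤ ∑ _p : P, (1 : ℝ) :=
          Finset.sum_le_sum fun p _ => mul_le_one₀ (ha k p).2 (hc k p).1 (hc k p).2
      _ = _ := by simp [Finset.card_univ]

theorem rho_mem [Nonempty P] (a c : K → P → ℝ) (ha : ∀ k p, 0 ≤ a k p ∧ a k p ≤ 1)
    (hc : ∀ k p, 0 ≤ c k p ∧ c k p ≤ 1) : 0 ≤ rho a c ∧ rho a c ≤ 1 := by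
  have hP0 : 0 < Fintype.card P := Fintype.card_pos
  have hK0 : 0 < Fintype.card K := Fintype.card_pos_iff.2 ⟨0⟩
  have hP : (0 : ℝ) < (Fintype.card P : ℝ) := by exact_mod_cast hP0
  have hK : (0 : ℝ) < (Fintype.card K : ℝ) := by exact_mod_cast hK0
  constructor
  · exact div_nonneg (Finset.sum_nonneg fun k _ => Finset.sum_nonneg fun p _ =>
      mul_nonneg (ha k p).1 (hc k p).1) (by positivity)
  · rw [rho, div_le_one (by positivity)]
    calc ∑ k, ∑ p, a k p * c k p ≤ ∑ _k : K, ∑ _p : P, (1 : ℝ) :=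
          Finset.sum_le_sum fun k _ => Finset.sum_le_sum fun p _ =>
            mul_le_one₀ (ha k p).2 (hc k p).1 (hc k p).2
      _ = _ := by simp [Finset.card_univ]

/-- the deviation of one node -/
noncomputable def dev (a c : K → P → ℝ) (y : T → K) : ℝ := ∑ t, (part a c (y t) - rho a c)

theorem dev_sq_le [Nonempty P] (a c : K → P → ℝ) (ha : ∀ k p, 0 ≤ a k p ∧ a k p ≤ 1)
    (hc : ∀ k p, 0 ≤ c k p ∧ c k p ≤ 1) (y : T → K) :
    dev a c y ^ 2 ≤ (Fintype.card T : ℝ) + Off a c y := by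
  have h1 : dev a c y ^ 2 = (∑ t, (part a c (y t) - rho a c) ^ 2) + Off a c y := by
    rw [pow_two, dev, Finset.sum_mul_sum, ← Finset.sum_product', Off,
      ← Finset.diag_union_offDiag, Finset.sum_union (Finset.disjoint_diag_offDiag _),
      Finset.sum_diag]
    congr 1
    exact Finset.sum_congr rfl fun t _ => (pow_two _).symm
  have h2 : ∑ t : T, (part a c (y t) - rho a c) ^ 2 ≤ (Fintype.card T : ℝ) := by
    calc ∑ t : T, (part a c (y t) - rho a c) ^ 2 ≤ ∑ _t : T, (1 : ℝ) := by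
          refine Finset.sum_le_sum fun t _ => ?_
          have m1 := part_mem a c ha hc (y t)
          have m2 := rho_mem a c ha hc
          have : |part a c (y t) - rho a c| ≤ 1 := by
            rw [abs_le]; constructor <;> linarith
          rw [← sq_abs]
          exact pow_le_one₀ (abs_nonneg _) this
      _ = _ := by simp [Finset.card_univ]
  linarith

/-- **Moment of the nonnegative test function.** -/
theorem moment [Nonempty P] (Φ : G₁ →+ (A → T → K)) (hΦ : Four Φ)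
    (Ψ : G₂ →+ (A → T → K)) (hΨ : Four Ψ) (x : A → T → K)
    (f₁ : G₂ → K → P → ℝ) (f₂ : G₁ → K → P → ℝ)
    (h₁ : ∀ g k p, 0 ≤ f₁ g k p ∧ f₁ g k p ≤ 1) (h₂ : ∀ g k p, 0 ≤ f₂ g k p ∧ f₂ g k p ≤ 1) :
    ∑ g₁, ∑ g₂, ∏ u, ((Fintype.card T : ℝ) + Off (f₁ g₂) (f₂ g₁) ((x + Φ g₁ + Ψ g₂) u))
      ≤ ((Fintype.card G₁ : ℝ) * (Fintype.card G₂ : ℝ)) *
        (4 * (Fintype.card T : ℝ)) ^ Fintype.card A := by
  set m : ℝ := (Fintype.card T : ℝ) with hm
  have hm0 : 0 ≤ m := by positivity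
  set N : ℝ := (Fintype.card G₁ : ℝ) * (Fintype.card G₂ : ℝ) with hN
  have hN0 : 0 ≤ N := by positivity
  have e1 : ∀ g₁ g₂, ∏ u, (m + Off (f₁ g₂) (f₂ g₁) ((x + Φ g₁ + Ψ g₂) u))
      = ∑ B ∈ (univ : Finset A).powerset,
        (∏ u ∈ B, Off (f₁ g₂) (f₂ g₁) ((x + Φ g₁ + Ψ g₂) u)) * ∏ _u ∈ univ \ B, m := by
    intro g₁ g₂
    rw [← Finset.prod_add]
    exact Finset.prod_congr rfl fun u _ => add_comm _ _
  have e2 : ∑ g₁, ∑ g₂, ∏ u, (m + Off (f₁ g₂) (f₂ g₁) ((x + Φ g₁ + Ψ g₂) u))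
      = ∑ B ∈ (univ : Finset A).powerset,
        (∑ g₁, ∑ g₂, ∏ u ∈ B, Off (f₁ g₂) (f₂ g₁) ((x + Φ g₁ + Ψ g₂) u)) *
          ∏ _u ∈ univ \ B, m := by
    rw [Finset.sum_congr rfl fun g₁ _ => Finset.sum_congr rfl fun g₂ _ => e1 g₁ g₂]
    rw [Finset.sum_congr rfl fun g₁ _ => Finset.sum_comm, Finset.sum_comm]
    refine Finset.sum_congr rfl fun B _ => ?_
    rw [Finset.sum_mul]
    exact Finset.sum_congr rfl fun g₁ _ => (Finset.sum_mul _ _ _).symm
  have e3 : ∀ B ∈ (univ : Finset A).powerset,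
      (∑ g₁, ∑ g₂, ∏ u ∈ B, Off (f₁ g₂) (f₂ g₁) ((x + Φ g₁ + Ψ g₂) u)) *
          ∏ _u ∈ univ \ B, m ≤ N * ((∏ _u ∈ B, (3 * m)) * ∏ _u ∈ univ \ B, m) := by
    intro B _
    have h := moment_off (restr B Φ) (four_restr B Φ hΦ) (restr B Ψ) (four_restr B Ψ hΨ)
      (fun u => x u) f₁ f₂ h₁ h₂
    have h3 : ∀ g₁ g₂, ∏ u : B, Off (f₁ g₂) (f₂ g₁)
        (((fun u : B => x u) + restr B Φ g₁ + restr B Ψ g₂) u)
        = ∏ u ∈ B, Off (f₁ g₂) (f₂ g₁) ((x + Φ g₁ + Ψ g₂) u) := by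
      intro g₁ g₂
      exact Finset.prod_coe_sort B
        (fun u => Off (f₁ g₂) (f₂ g₁) ((x + Φ g₁ + Ψ g₂) u))
    simp only [h3] at h
    rw [← mul_assoc]
    refine mul_le_mul_of_nonneg_right ?_ (Finset.prod_nonneg fun _ _ => hm0)
    rw [Finset.prod_const]
    simpa using h
  rw [e2]
  refine (Finset.sum_le_sum e3).trans ?_
  rw [← Finset.mul_sum, ← Finset.prod_add, Finset.prod_const, Finset.card_univ]
  refine le_of_eq ?_
  congr 2
  ring

/-- **The second moment lemma.**  At most `(4 / (m δ²)) ^ |A|` of the pairs of shifts are bad. -/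
theorem count_bad [Nonempty P] [Nonempty T] (Φ : G₁ →+ (A → T → K)) (hΦ : Four Φ)
    (Ψ : G₂ →+ (A → T → K)) (hΨ : Four Ψ) (x : A → T → K)
    (f₁ : G₂ → K → P → ℝ) (f₂ : G₁ → K → P → ℝ)
    (h₁ : ∀ g k p, 0 ≤ f₁ g k p ∧ f₁ g k p ≤ 1) (h₂ : ∀ g k p, 0 ≤ f₂ g k p ∧ f₂ g k p ≤ 1)
    (δ : ℝ) (hδ : 0 ≤ δ) (bad : Finset (G₁ × G₂))
    (hbad : ∀ g ∈ bad, ∀ u, ∑ t, part (f₁ g.2) (f₂ g.1) ((x + Φ g.1 + Ψ g.2) u t)
      ≤ (Fintype.card T : ℝ) * (rho (f₁ g.2) (f₂ g.1) - δ)) :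
    (bad.card : ℝ) * ((Fintype.card T : ℝ) * δ ^ 2) ^ Fintype.card A
      ≤ ((Fintype.card G₁ : ℝ) * (Fintype.card G₂ : ℝ)) * 4 ^ Fintype.card A := by
  have hT0 : 0 < Fintype.card T := Fintype.card_pos
  have hT : (0 : ℝ) < (Fintype.card T : ℝ) := by exact_mod_cast hT0
  set m : ℝ := (Fintype.card T : ℝ) with hm
  have hnn : ∀ g : G₁ × G₂, ∀ u, 0 ≤ m + Off (f₁ g.2) (f₂ g.1) ((x + Φ g.1 + Ψ g.2) u) :=
    fun g u => (sq_nonneg _).trans (dev_sq_le (f₁ g.2) (f₂ g.1) (h₁ g.2) (h₂ g.1) _)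
  have hge : ∀ g ∈ bad, (m ^ 2 * δ ^ 2) ^ Fintype.card A
      ≤ ∏ u, (m + Off (f₁ g.2) (f₂ g.1) ((x + Φ g.1 + Ψ g.2) u)) := by
    intro g hg
    have : (m ^ 2 * δ ^ 2) ^ Fintype.card A = ∏ _u : A, (m ^ 2 * δ ^ 2) := by
      rw [Finset.prod_const, Finset.card_univ]
    rw [this]
    refine Finset.prod_le_prod (fun _ _ => by positivity) fun u _ => ?_
    refine le_trans ?_ (dev_sq_le (f₁ g.2) (f₂ g.1) (h₁ g.2) (h₂ g.1) _)
    have hd : dev (f₁ g.2) (f₂ g.1) ((x + Φ g.1 + Ψ g.2) u) ≤ -(m * δ) := by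
      rw [dev, Finset.sum_sub_distrib, Finset.sum_const, Finset.card_univ, nsmul_eq_mul, ← hm]
      have := hbad g hg u
      linarith
    have hmd : 0 ≤ m * δ := by positivity
    nlinarith
  have h1 : (bad.card : ℝ) * (m ^ 2 * δ ^ 2) ^ Fintype.card A
      ≤ ∑ g ∈ bad, ∏ u, (m + Off (f₁ g.2) (f₂ g.1) ((x + Φ g.1 + Ψ g.2) u)) := by
    rw [← nsmul_eq_mul, ← Finset.sum_const]
    exact Finset.sum_le_sum hge
  have h2 : ∑ g ∈ bad, ∏ u, (m + Off (f₁ g.2) (f₂ g.1) ((x + Φ g.1 + Ψ g.2) u))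
      ≤ ∑ g : G₁ × G₂, ∏ u, (m + Off (f₁ g.2) (f₂ g.1) ((x + Φ g.1 + Ψ g.2) u)) :=
    Finset.sum_le_sum_of_subset_of_nonneg (Finset.subset_univ _)
      fun g _ _ => Finset.prod_nonneg fun u _ => hnn g u
  have h3 := moment Φ hΦ Ψ hΨ x f₁ f₂ h₁ h₂
  rw [← Fintype.sum_prod_type'] at h3
  have h4 := h1.trans (h2.trans h3)
  have hmp : (0 : ℝ) < m ^ Fintype.card A := by positivity
  have e1 : (bad.card : ℝ) * (m ^ 2 * δ ^ 2) ^ Fintype.card A
      = m ^ Fintype.card A * ((bad.card : ℝ) * (m * δ ^ 2) ^ Fintype.card A) := by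
    have : (m ^ 2 * δ ^ 2) = m * (m * δ ^ 2) := by ring
    rw [this, mul_pow m (m * δ ^ 2)]
    ring
  have e2 : ((Fintype.card G₁ : ℝ) * (Fintype.card G₂ : ℝ)) * (4 * m) ^ Fintype.card A
      = m ^ Fintype.card A *
        (((Fintype.card G₁ : ℝ) * (Fintype.card G₂ : ℝ)) * 4 ^ Fintype.card A) := by
    rw [mul_pow]; ring
  rw [e1, ← hm, e2] at h4
  exact le_of_mul_le_mul_left h4 hmp

end Z

end Pool.Agent.Helper69.BT
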